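import Pool.Agent.Lib.MP_4fe900_gt.Sx.Mer

/-! Blocks on seven vertices and pools of blocks. -/

namespace Pool.Agent.Lib.MP_4fe900_gt.Sx

open Pool.Agent.Lib.MP_4fe900_gt

variable {V : Type} {r : V → V → Prop} {w : V × V → V × V → ZMod 2}

def o1 : Fin 3 → Fin 3 := ![1, 0, 0]

def o2 : Fin 3 → Fin 3 := ![2, 2, 1]

theorem o_spec : ∀ i : Fin 3, o1 i ≠ i ∧ o2 i ≠ i ∧ o1 i < o2 i := by decide

def q4 (H : Fin 3 → Fin 3 → ZMod 2) (i j : Fin 3) : ZMod 2 :=
  H (o1 i) (o1 j) + H (o1 i) (o2 j) + H (o2 i) (o1 j) + H (o2 i) (o2 j)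

theorem core0 (X : Fin 3 → Fin 3 → Fin 3 → Fin 3 → ZMod 2) (Y Z : Fin 3 → Fin 3 → Fin 3 → ZMod 2)
    (h : ∑ i, ∑ i', ∑ j, ∑ j', (if i ≠ i' ∧ j ≠ j' then X i j i' j' else 0) = 1) :
    ∃ i j, q4 (fun i' j' => X i j i' j' + Y i i' j' + Z j i' j') i j = 1 := by
  by_contra hn
  push Not at hn
  have h0 : ∀ i j, q4 (fun i' j' => X i j i' j' + Y i i' j' + Z j i' j') i j = 0 := fun i j =>
    (z2 _).resolve_right (hn i j)
  have h1 : ∑ i, ∑ j, q4 (fun i' j' => X i j i' j' + Y i i' j' + Z j i' j') i j = 0 := by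
    simp [h0]
  have two : (2 : ZMod 2) = 0 := by decide
  have one : (1 : ZMod 2) ≠ 0 := by decide
  apply one
  simp [Fin.sum_univ_three] at h
  simp only [Fin.sum_univ_three, q4, o1, o2, Matrix.cons_val_zero, Matrix.cons_val_one,
    Matrix.cons_val_two, Matrix.head_cons, Matrix.tail_cons] at h1
  linear_combination h1 - h - (Y 0 1 0 + Y 0 1 1 + Y 0 1 2 + Y 0 2 0 + Y 0 2 1 + Y 0 2 2
    + Y 1 0 0 + Y 1 0 1 + Y 1 0 2 + Y 1 2 0 + Y 1 2 1 + Y 1 2 2
    + Y 2 0 0 + Y 2 0 1 + Y 2 0 2 + Y 2 1 0 + Y 2 1 1 + Y 2 1 2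
    + Z 0 0 1 + Z 0 1 1 + Z 0 2 1 + Z 0 0 2 + Z 0 1 2 + Z 0 2 2
    + Z 1 0 0 + Z 1 1 0 + Z 1 2 0 + Z 1 0 2 + Z 1 1 2 + Z 1 2 2
    + Z 2 0 0 + Z 2 1 0 + Z 2 2 0 + Z 2 0 1 + Z 2 1 1 + Z 2 2 1) * two

theorem split2 : ∀ a b c d e : ZMod 2, a + b + c + d = 1 → a + e + b = 1 ∨ c + e + d = 1 := by
  decide

theorem split3 : ∀ a b c d e : ZMod 2, a + b + c + d = 1 → e + c + a = 1 ∨ e + d + b = 1 := by
  decide

/-- a linked pair of flexible triangles with sources in `A` and sinks in `B` -/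
def Good (r : V → V → Prop) (w : V × V → V × V → ZMod 2) (A B : Finset V) (q : Tr V × Tr V) :
    Prop :=
  q.1.Ok r ∧ q.2.Ok r ∧ Disjoint q.1.vs q.2.vs ∧ fl (fun e => fl (w e) q.2) q.1 = 1 ∧
    q.1.s ∈ A ∧ q.1.t ∈ B ∧ q.2.s ∈ A ∧ q.2.t ∈ B

def Blk (r : V → V → Prop) (w : V × V → V × V → ZMod 2) (A B : Finset V) : Prop :=
  ∃ (q : Tr V × Tr V) (UA UB : Finset V), Good r w A B q ∧ UA ⊆ A ∧ UB ⊆ B ∧ UA.card ≤ 3 ∧
    UB.card ≤ 3 ∧ ∀ x, x ∈ q.1.vs ∨ x ∈ q.2.vs → x ∈ UA ∨ x ∈ UB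

theorem fl_swap (σ ρ : Tr V) : fl (fun e => fl (w e) ρ) σ =
    fl (fun f => fl (fun e => w e f) σ) ρ := by
  simp only [fl]; ring

theorem blkA [LinearOrder V] (hw : K33 r w) {A B : Finset V} (hA : 4 ≤ A.card) (hB : 3 ≤ B.card)
    (hd : Disjoint A B) (hAB : ∀ a ∈ A, ∀ b ∈ B, r a b)
    (hAA : ∀ a ∈ A, ∀ b ∈ A, a < b → r a b) (hBB : ∀ a ∈ B, ∀ b ∈ B, a < b → r a b) :
    Blk r w A B := by
  let e := A.orderEmbOfCardLe hA
  let b := B.orderEmbOfCardLe hB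
  have he : ∀ i, e i ∈ A := fun i => A.orderEmbOfCardLe_mem hA i
  have hb : ∀ i, b i ∈ B := fun i => B.orderEmbOfCardLe_mem hB i
  let a : Fin 3 → V := fun i => e i.succ
  have ha : ∀ i, a i ∈ A := fun i => he _
  have ai : Function.Injective a := e.injective.comp (Fin.succ_injective _)
  have va : ∀ i, e 0 < a i := fun i => e.strictMono (Fin.succ_pos i)
  have ne : ∀ x ∈ A, ∀ y ∈ B, x ≠ y := fun x hx y hy h =>
    Finset.disjoint_left.mp hd hx (h ▸ hy)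
  obtain ⟨i, j, h⟩ := core0 (fun i j i' j' => w (a i, b j) (a i', b j'))
    (fun i i' j' => w (e 0, a i) (a i', b j')) (fun j i' j' => w (e 0, b j) (a i', b j'))
    (hw a b ai b.injective (fun i j => ne _ (ha i) _ (hb j)) (fun i j => hAB _ (ha i) _ (hb j)))
  obtain ⟨i1, i2, -⟩ := o_spec i
  obtain ⟨j1, j2, j3⟩ := o_spec j
  have key : ∀ k, k ≠ i →
      fl (fun f => fl (fun e' => w e' f) ⟨e 0, a i, b j⟩) ⟨a k, b (o1 j), b (o2 j)⟩ = 1 →
      Blk r w A B := by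
    intro k hk hl
    refine ⟨(⟨e 0, a i, b j⟩, ⟨a k, b (o1 j), b (o2 j)⟩), {e 0, a i, a k},
      {b j, b (o1 j), b (o2 j)}, ⟨?_, ?_, ?_, ?_, he 0, hb _, ha _, hb _⟩, ?_, ?_,
      Finset.card_le_three, Finset.card_le_three, ?_⟩
    · exact ⟨hAA _ (he 0) _ (ha i) (va i), hAB _ (ha i) _ (hb j), hAB _ (he 0) _ (hb j),
        (va i).ne, ne _ (ha i) _ (hb j), ne _ (he 0) _ (hb j)⟩
    · exact ⟨hAB _ (ha k) _ (hb _), hBB _ (hb _) _ (hb _) (b.strictMono j3),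
        hAB _ (ha k) _ (hb _), ne _ (ha k) _ (hb _), (b.strictMono j3).ne, ne _ (ha k) _ (hb _)⟩
    · rw [Set.disjoint_left]
      rintro x (rfl | rfl | rfl) (h | h | h)
      · exact (va k).ne h
      · exact ne _ (he 0) _ (hb _) h
      · exact ne _ (he 0) _ (hb _) h
      · exact hk (ai h).symm
      · exact ne _ (ha _) _ (hb _) h
      · exact ne _ (ha _) _ (hb _) h
      · exact ne _ (ha _) _ (hb _) h.symm
      · exact j1 (b.injective h).symm
      · exact j2 (b.injective h).symm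
    · rw [fl_swap]; exact hl
    · intro x hx
      simp only [Finset.mem_insert, Finset.mem_singleton] at hx
      rcases hx with rfl | rfl | rfl
      exacts [he 0, ha _, ha _]
    · intro x hx
      simp only [Finset.mem_insert, Finset.mem_singleton] at hx
      rcases hx with rfl | rfl | rfl
      exacts [hb _, hb _, hb _]
    · rintro x ((rfl | rfl | rfl) | (rfl | rfl | rfl)) <;> simp
  rcases split2 _ _ _ _ (fl (fun e' => w e' (b (o1 j), b (o2 j))) ⟨e 0, a i, b j⟩) h with g | g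
  · refine key _ i1 ?_
    rw [← g]; simp only [fl]; ring
  · refine key _ i2 ?_
    rw [← g]; simp only [fl]; ring

theorem blkB [LinearOrder V] (hw : K33 r w) {A B : Finset V} (hA : 3 ≤ A.card) (hB : 4 ≤ B.card)
    (hd : Disjoint A B) (hAB : ∀ a ∈ A, ∀ b ∈ B, r a b)
    (hAA : ∀ a ∈ A, ∀ b ∈ A, a < b → r a b) (hBB : ∀ a ∈ B, ∀ b ∈ B, a < b → r a b) :
    Blk r w A B := by
  let a := A.orderEmbOfCardLe hA
  let e := B.orderEmbOfCardLe hB
  have ha : ∀ i, a i ∈ A := fun i => A.orderEmbOfCardLe_mem hA i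
  have he : ∀ i, e i ∈ B := fun i => B.orderEmbOfCardLe_mem hB i
  let b : Fin 3 → V := fun i => e i.castSucc
  have hb : ∀ i, b i ∈ B := fun i => he _
  have bi : Function.Injective b := e.injective.comp (Fin.castSucc_injective _)
  have vb : ∀ i, b i < e (Fin.last 3) := fun i => e.strictMono (Fin.castSucc_lt_last i)
  have ne : ∀ x ∈ A, ∀ y ∈ B, x ≠ y := fun x hx y hy h =>
    Finset.disjoint_left.mp hd hx (h ▸ hy)
  obtain ⟨i, j, h⟩ := core0 (fun i j i' j' => w (a i, b j) (a i', b j'))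
    (fun i i' j' => w (a i, e (Fin.last 3)) (a i', b j'))
    (fun j i' j' => w (b j, e (Fin.last 3)) (a i', b j'))
    (hw a b a.injective bi (fun i j => ne _ (ha i) _ (hb j)) (fun i j => hAB _ (ha i) _ (hb j)))
  obtain ⟨i1, i2, i3⟩ := o_spec i
  obtain ⟨j1, j2, -⟩ := o_spec j
  have key : ∀ k, k ≠ j →
      fl (fun f => fl (fun e' => w e' f) ⟨a i, b j, e (Fin.last 3)⟩)
        ⟨a (o1 i), a (o2 i), b k⟩ = 1 → Blk r w A B := by
    intro k hk hl
    refine ⟨(⟨a i, b j, e (Fin.last 3)⟩, ⟨a (o1 i), a (o2 i), b k⟩), {a i, a (o1 i), a (o2 i)},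
      {b j, e (Fin.last 3), b k}, ⟨?_, ?_, ?_, ?_, ha _, he _, ha _, hb _⟩, ?_, ?_,
      Finset.card_le_three, Finset.card_le_three, ?_⟩
    · exact ⟨hAB _ (ha i) _ (hb j), hBB _ (hb j) _ (he _) (vb j), hAB _ (ha i) _ (he _),
        ne _ (ha i) _ (hb j), (vb j).ne, ne _ (ha i) _ (he _)⟩
    · exact ⟨hAA _ (ha _) _ (ha _) (a.strictMono i3), hAB _ (ha _) _ (hb _),
        hAB _ (ha _) _ (hb _), (a.strictMono i3).ne, ne _ (ha _) _ (hb _), ne _ (ha _) _ (hb _)⟩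
    · rw [Set.disjoint_left]
      rintro x (rfl | rfl | rfl) (h | h | h)
      · exact i1 (a.injective h).symm
      · exact i2 (a.injective h).symm
      · exact ne _ (ha _) _ (hb _) h
      · exact ne _ (ha _) _ (hb _) h.symm
      · exact ne _ (ha _) _ (hb _) h.symm
      · exact hk (bi h).symm
      · exact ne _ (ha _) _ (he _) h.symm
      · exact ne _ (ha _) _ (he _) h.symm
      · exact (vb k).ne h.symm
    · rw [fl_swap]; exact hl
    · intro x hx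
      simp only [Finset.mem_insert, Finset.mem_singleton] at hx
      rcases hx with rfl | rfl | rfl
      exacts [ha _, ha _, ha _]
    · intro x hx
      simp only [Finset.mem_insert, Finset.mem_singleton] at hx
      rcases hx with rfl | rfl | rfl
      exacts [hb _, he _, hb _]
    · rintro x ((rfl | rfl | rfl) | (rfl | rfl | rfl)) <;> simp
  rcases split3 _ _ _ _ (fl (fun e' => w e' (a (o1 i), a (o2 i))) ⟨a i, b j, e (Fin.last 3)⟩) h
    with g | g
  · refine key _ j1 ?_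
    rw [← g]; simp only [fl]; ring
  · refine key _ j2 ?_
    rw [← g]; simp only [fl]; ring

theorem Good.mono {A B A' B' : Finset V} {q : Tr V × Tr V} (h : Good r w A B q) (hA : A ⊆ A')
    (hB : B ⊆ B') : Good r w A' B' q := by
  obtain ⟨h1, h2, h3, h4, h5, h6, h7, h8⟩ := h
  exact ⟨h1, h2, h3, h4, hA h5, hB h6, hA h7, hB h8⟩

def pv (q : Tr V × Tr V) : Set V := q.1.vs ∪ q.2.vs

theorem pool [DecidableEq V] [Nonempty V] {A B : Finset V} (hd : Disjoint A B) (x y : ℕ)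
    (hb : ∀ A' ⊆ A, ∀ B' ⊆ B, 3 + x ≤ A'.card → 3 + y ≤ B'.card → Blk r w A' B') (n : ℕ)
    (hA : 3 * n + x ≤ A.card) (hB : 3 * n + y ≤ B.card) :
    ∃ (q : ℕ → Tr V × Tr V) (UA UB : Finset V), UA ⊆ A ∧ UB ⊆ B ∧ UA.card ≤ 3 * n ∧
      UB.card ≤ 3 * n ∧ (∀ i < n, Good r w A B (q i)) ∧
      (∀ i < n, ∀ z ∈ pv (q i), z ∈ UA ∨ z ∈ UB) ∧
      ∀ i < n, ∀ j < i, Disjoint (pv (q i)) (pv (q j)) := by
  induction n with
  | zero =>
    obtain ⟨v⟩ := ‹Nonempty V›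
    exact ⟨fun _ => (⟨v, v, v⟩, ⟨v, v, v⟩), ∅, ∅, by simp, by simp, by simp, by simp, by simp,
      by simp, by simp⟩
  | succ n ih =>
    obtain ⟨q, UA, UB, h1, h2, h3, h4, h5, h6, h7⟩ := ih (by omega) (by omega)
    have c1 := Finset.card_sdiff_add_card_eq_card h1
    have c2 := Finset.card_sdiff_add_card_eq_card h2
    obtain ⟨p, XA, XB, g1, g2, g3, g4, g5, g6⟩ := hb (A \ UA) Finset.sdiff_subset (B \ UB)
      Finset.sdiff_subset (by omega) (by omega)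
    have e : ∀ j < n, Function.update q n p j = q j := fun j hj =>
      Function.update_of_ne hj.ne _ _
    have e' : Function.update q n p n = p := Function.update_self _ _ _
    refine ⟨Function.update q n p, UA ∪ XA, UB ∪ XB,
      Finset.union_subset h1 (g2.trans Finset.sdiff_subset),
      Finset.union_subset h2 (g3.trans Finset.sdiff_subset),
      (Finset.card_union_le _ _).trans (by omega), (Finset.card_union_le _ _).trans (by omega),
      ?_, ?_, ?_⟩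
    · intro i hi
      rcases Nat.lt_succ_iff_lt_or_eq.mp hi with hi | rfl
      · rw [e i hi]; exact h5 i hi
      · rw [e']; exact g1.mono Finset.sdiff_subset Finset.sdiff_subset
    · intro i hi z hz
      simp only [Finset.mem_union]
      rcases Nat.lt_succ_iff_lt_or_eq.mp hi with hi | rfl
      · rw [e i hi] at hz
        exact (h6 i hi z hz).imp Or.inl Or.inl
      · rw [e'] at hz
        exact (g6 z hz).imp Or.inr Or.inr
    · intro i hi j hj
      rcases Nat.lt_succ_iff_lt_or_eq.mp hi with hi | rfl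
      · rw [e i hi, e j (hj.trans hi)]; exact h7 i hi j hj
      · rw [e', e j hj, Set.disjoint_left]
        intro z hz hz'
        rcases g6 z hz with k | k <;> rcases h6 j hj z hz' with k' | k'
        · exact (Finset.mem_sdiff.mp (g2 k)).2 k'
        · exact Finset.disjoint_left.mp hd (Finset.mem_sdiff.mp (g2 k)).1 (h2 k')
        · exact Finset.disjoint_left.mp hd (h1 k') (Finset.mem_sdiff.mp (g3 k)).1
        · exact (Finset.mem_sdiff.mp (g3 k)).2 k'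

theorem chain (k : ℕ) (q : ℕ → Tr V × Tr V) (S T : ℕ → Finset V) {u u' : V}
    (hg : ∀ i ≤ k, Good r w (S i) (T i) (q i))
    (hd : ∀ i ≤ k, ∀ j < i, Disjoint (pv (q i)) (pv (q j)))
    (hf : ∀ i < k, ∀ a ∈ T i, ∀ b ∈ S (i + 1), r a b)
    (hb : ∀ i < k, ∀ a ∈ T (i + 1), ∀ b ∈ S i, r a b)
    (hu : ∀ i ≤ k, u ∉ pv (q i)) (hu' : ∀ i ≤ k, u' ∉ pv (q i)) (huu : u' ≠ u)
    (h1 : ∀ a ∈ T 0, r a u) (h2 : ∀ a ∈ S 0, r u a)
    (h3 : ∀ a ∈ T k, r a u') (h4 : ∀ a ∈ S k, r u' a) : Fam r w (k + 2) := by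
  have main : ∀ n ≤ k, ∃ (U : Set V) (τ : Tr V), Sta r w (n + 1) U τ ∧ τ.s ∈ S n ∧ τ.t ∈ T n ∧
      ∀ z ∈ U, z = u ∨ ∃ j ≤ n, z ∈ pv (q j) := by
    intro n
    induction n with
    | zero =>
      intro h0
      obtain ⟨g1, g2, g3, g4, g5, g6, g7, g8⟩ := hg 0 h0
      refine ⟨_, _, start g1 g2 g3 (fun h => hu 0 h0 (Or.inl h)) (fun h => hu 0 h0 (Or.inr h))
        (h1 _ g6) (h2 _ g5) g4, g7, g8, ?_⟩
      rintro z (hz | hz)
      · exact Or.inl hz
      · exact Or.inr ⟨0, le_rfl, hz⟩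
    | succ n ih =>
      intro hn
      obtain ⟨U, τ, s1, s2, s3, s4⟩ := ih (by omega)
      obtain ⟨g1, g2, g3, g4, g5, g6, g7, g8⟩ := hg (n + 1) hn
      have dU : Disjoint (pv (q (n + 1))) U := by
        rw [Set.disjoint_left]
        intro z hz hz'
        rcases s4 z hz' with rfl | ⟨j, hj, hz''⟩
        · exact hu _ hn hz
        · exact Set.disjoint_left.mp (hd (n + 1) hn j (by omega)) hz hz''
      have hU : ∀ z ∈ U ∪ ((q (n + 1)).1.vs ∪ (q (n + 1)).2.vs),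
          z = u ∨ ∃ j ≤ n + 1, z ∈ pv (q j) := by
        rintro z (hz | hz)
        · rcases s4 z hz with h | ⟨j, hj, h⟩
          · exact Or.inl h
          · exact Or.inr ⟨j, by omega, h⟩
        · exact Or.inr ⟨n + 1, le_rfl, hz⟩
      rcases step s1 g1 g2 (Set.disjoint_of_subset_left Set.subset_union_left dU)
        (Set.disjoint_of_subset_left Set.subset_union_right dU) g3
        (hf n hn _ s3 _ g5) (hb n hn _ g6 _ s2) (hf n hn _ s3 _ g7) (hb n hn _ g8 _ s2) g4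
        with h | h
      · exact ⟨_, _, h, g5, g6, hU⟩
      · exact ⟨_, _, h, g7, g8, hU⟩
  obtain ⟨U, τ, s1, s2, s3, s4⟩ := main k le_rfl
  refine finish s1 ?_ (h3 _ s3) (h4 _ s2)
  intro hz
  rcases s4 _ hz with h | ⟨j, hj, h⟩
  · exact huu h
  · exact hu' j hj h

end Pool.Agent.Lib.MP_4fe900_gt.Sx
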