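import Pool.Agent.Lib.MP_4fe900_gt.St

/-! Flexible triangles and the merging step. -/

namespace Pool.Agent.Lib.MP_4fe900_gt.Sx

open Pool.Agent.Lib.MP_4fe900_gt

variable {V : Type} {r : V → V → Prop} {w : V × V → V × V → ZMod 2}

/-- a transitive triangle: source, middle, sink -/
structure Tr (V : Type) where
  s : V
  m : V
  t : V

def Tr.vs (τ : Tr V) : Set V := {x | x = τ.s ∨ x = τ.m ∨ x = τ.t}

def Tr.Ok (r : V → V → Prop) (τ : Tr V) : Prop :=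
  r τ.s τ.m ∧ r τ.m τ.t ∧ r τ.s τ.t ∧ τ.s ≠ τ.m ∧ τ.m ≠ τ.t ∧ τ.s ≠ τ.t

def fl (F : V × V → ZMod 2) (τ : Tr V) : ZMod 2 := F (τ.s, τ.m) + F (τ.m, τ.t) + F (τ.s, τ.t)

def ev (F : V × V → ZMod 2) (l : List V) : ZMod 2 := ((arcs l).map F).sum

def sd (w : V × V → V × V → ZMod 2) (β : Bool) (C : List V) (e : V × V) : ZMod 2 :=
  if β then ev (w e) C else ev (fun f => w f e) C

theorem z2 : ∀ x : ZMod 2, x = 0 ∨ x = 1 := by decide

theorem sum_swap {α β : Type} (l : List α) (k : List β) (F : α → β → ZMod 2) :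
    (l.map fun a => (k.map fun b => F a b).sum).sum =
      (k.map fun b => (l.map fun a => F a b).sum).sum := by
  induction l with
  | nil => simp
  | cons a l ih => simp only [List.map_cons, List.sum_cons, ih, List.sum_map_add]

theorem ev_sd (β : Bool) (C Z : List V) (h : ev (sd w β C) Z = 1) :
    lk w C Z = 1 ∨ lk w Z C = 1 := by
  cases β
  · left
    rw [← h]
    unfold lk
    rw [sum_swap]
    rfl
  · right
    exact h

theorem fl_sd (Z : List V) (τ : Tr V) :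
    fl (sd w false Z) τ = ev (fun e => fl (w e) τ) Z := by
  simp only [fl, sd, ev, Bool.false_eq_true, if_false, List.sum_map_add]

theorem close1 (F : V × V → ZMod 2) {τ : Tr V} (hτ : τ.Ok r) {u : V} (hu : u ∉ τ.vs)
    (h1 : r τ.t u) (h2 : r u τ.s) (hF : fl F τ = 1) :
    ∃ Z, IsCyc r Z ∧ (∀ x ∈ Z, x ∈ τ.vs ∨ x = u) ∧ ev F Z = 1 := by
  obtain ⟨s, m, t⟩ := τ
  obtain ⟨e1, e2, e3, n1, n2, n3⟩ := hτ
  simp only [Tr.vs, Set.mem_ofPred_eq, not_or] at hu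
  obtain ⟨u1, u2, u3⟩ := hu
  simp only [fl] at hF e1 e2 e3 n1 n2 n3 h1 h2
  have c1 : IsCyc r [s, t, u] := by
    refine ⟨by simp, by simp [n3, Ne.symm u1, Ne.symm u3], ?_⟩
    simp [arcs, e3, h1, h2]
  have c2 : IsCyc r [s, m, t, u] := by
    refine ⟨by simp, by simp [n1, n2, n3, Ne.symm u1, Ne.symm u2, Ne.symm u3], ?_⟩
    simp [arcs, e1, e2, h1, h2]
  have v1 : ev F [s, t, u] = F (s, t) + (F (t, u) + F (u, s)) := by simp [ev, arcs]
  have v2 : ev F [s, m, t, u] = F (s, m) + (F (m, t) + (F (t, u) + F (u, s))) := by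
    simp [ev, arcs]
  rcases z2 (ev F [s, t, u]) with h | h
  · refine ⟨_, c2, by simp [Tr.vs], ?_⟩
    rw [v2]
    rw [v1] at h
    revert h hF
    generalize F (s, t) = a; generalize F (s, m) = b; generalize F (m, t) = c
    generalize F (t, u) + F (u, s) = d
    revert a b c d; decide
  · exact ⟨_, c1, by simp [Tr.vs], h⟩

theorem pick : ∀ f0 g0 a b a' b' : ZMod 2, a = 1 →
    (f0 = 1 ∧ (a' = 0 → b' = 1 → g0 = 1)) ∨ (f0 + a = 1 ∧ (a' = 0 → b' = 1 → g0 + b = 1)) ∨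
    (f0 + a' = 1 ∧ (a' = 0 → b' = 1 → g0 + b' = 1)) ∨
    (f0 + a + a' = 1 ∧ (a' = 0 → b' = 1 → g0 + b + b' = 1)) := by
  intro f0 g0 a b a' b' h
  subst h
  rcases z2 f0 with rfl | rfl <;> rcases z2 g0 with rfl | rfl <;> rcases z2 b with rfl | rfl <;>
    rcases z2 a' with rfl | rfl <;> rcases z2 b' with rfl | rfl <;> decide

theorem close2 (F G : V × V → ZMod 2) {τ σ : Tr V} (hτ : τ.Ok r) (hσ : σ.Ok r)
    (hd : Disjoint τ.vs σ.vs) (h1 : r τ.t σ.s) (h2 : r σ.t τ.s) (hF : fl F τ = 1) :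
    ∃ Z, IsCyc r Z ∧ (∀ x ∈ Z, x ∈ τ.vs ∨ x ∈ σ.vs) ∧ ev F Z = 1 ∧
      (fl F σ = 0 → fl G σ = 1 → ev G Z = 1) := by
  obtain ⟨s, m, t⟩ := τ
  obtain ⟨s', m', t'⟩ := σ
  obtain ⟨e1, e2, e3, n1, n2, n3⟩ := hτ
  obtain ⟨e1', e2', e3', n1', n2', n3'⟩ := hσ
  rw [Set.disjoint_left] at hd
  have d1 := @hd s (by simp [Tr.vs])
  have d2 := @hd m (by simp [Tr.vs])
  have d3 := @hd t (by simp [Tr.vs])
  simp only [Tr.vs, Set.mem_ofPred_eq, not_or] at d1 d2 d3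
  simp only at e1 e2 e3 n1 n2 n3 h1 h2 e1' e2' e3' n1' n2' n3'
  have c1 : IsCyc r [s, t, s', t'] := by
    refine ⟨by simp, by simp [*], ?_⟩
    simp [arcs, *]
  have c2 : IsCyc r [s, m, t, s', t'] := by
    refine ⟨by simp, by simp [*], ?_⟩
    simp [arcs, *]
  have c3 : IsCyc r [s, t, s', m', t'] := by
    refine ⟨by simp, by simp [*], ?_⟩
    simp [arcs, *]
  have c4 : IsCyc r [s, m, t, s', m', t'] := by
    refine ⟨by simp, by simp [*], ?_⟩
    simp [arcs, *]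
  have tw : ∀ x : ZMod 2, x + x = 0 := by decide
  have v2 : ∀ H : V × V → ZMod 2,
      ev H [s, m, t, s', t'] = ev H [s, t, s', t'] + fl H ⟨s, m, t⟩ := by
    intro H
    simp only [ev, arcs, fl, List.rotate_cons_succ, List.rotate_zero, List.cons_append,
      List.nil_append, List.zip_cons_cons, List.zip_nil_right, List.map_cons, List.map_nil,
      List.sum_cons, List.sum_nil]
    linear_combination (-1 : ZMod 2) * tw (H (s, t))
  have v3 : ∀ H : V × V → ZMod 2,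
      ev H [s, t, s', m', t'] = ev H [s, t, s', t'] + fl H ⟨s', m', t'⟩ := by
    intro H
    simp only [ev, arcs, fl, List.rotate_cons_succ, List.rotate_zero, List.cons_append,
      List.nil_append, List.zip_cons_cons, List.zip_nil_right, List.map_cons, List.map_nil,
      List.sum_cons, List.sum_nil]
    linear_combination (-1 : ZMod 2) * tw (H (s', t'))
  have v4 : ∀ H : V × V → ZMod 2,
      ev H [s, m, t, s', m', t'] = ev H [s, t, s', t'] + fl H ⟨s, m, t⟩ + fl H ⟨s', m', t'⟩ := by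
    intro H
    simp only [ev, arcs, fl, List.rotate_cons_succ, List.rotate_zero, List.cons_append,
      List.nil_append, List.zip_cons_cons, List.zip_nil_right, List.map_cons, List.map_nil,
      List.sum_cons, List.sum_nil]
    linear_combination (-1 : ZMod 2) * tw (H (s', t')) - tw (H (s, t))
  rcases pick (ev F [s, t, s', t']) (ev G [s, t, s', t']) (fl F ⟨s, m, t⟩) (fl G ⟨s, m, t⟩)
    (fl F ⟨s', m', t'⟩) (fl G ⟨s', m', t'⟩) hF with h | h | h | h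
  · exact ⟨_, c1, by simp [Tr.vs], h⟩
  · exact ⟨_, c2, by simp [Tr.vs], by rw [v2, v2]; exact h⟩
  · exact ⟨_, c3, by simp [Tr.vs], by rw [v3, v3]; exact h⟩
  · exact ⟨_, c4, by simp [Tr.vs], by rw [v4, v4]; exact h⟩

/-- a connected family of `n` cycles inside `U` -/
def Con (r : V → V → Prop) (w : V × V → V × V → ZMod 2) (n : ℕ) (c : ℕ → List V)
    (U : Set V) : Prop :=
  (∀ i < n, IsCyc r (c i)) ∧ (∀ i < n, ∀ j < n, i ≠ j → (c i).Disjoint (c j)) ∧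
    (∀ i < n, i ≠ 0 → ∃ j < i, lk w (c j) (c i) = 1 ∨ lk w (c i) (c j) = 1) ∧
    ∀ i < n, ∀ x ∈ c i, x ∈ U

theorem Con.add {n : ℕ} {c : ℕ → List V} {U U' : Set V} (h : Con r w n c U) {Z : List V}
    (hZ : IsCyc r Z) (hd : ∀ i < n, ∀ x ∈ Z, x ∉ c i) (hU : U ⊆ U') (hZU : ∀ x ∈ Z, x ∈ U')
    (hl : n ≠ 0 → ∃ j < n, lk w (c j) Z = 1 ∨ lk w Z (c j) = 1) :
    Con r w (n + 1) (Function.update c n Z) U' := by
  obtain ⟨h1, h2, h3, h4⟩ := h
  have e : ∀ i < n, Function.update c n Z i = c i := fun i hi =>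
    Function.update_of_ne hi.ne _ _
  have e' : Function.update c n Z n = Z := Function.update_self _ _ _
  refine ⟨?_, ?_, ?_, ?_⟩
  · intro i hi
    rcases Nat.lt_succ_iff_lt_or_eq.mp hi with hi | rfl
    · rw [e i hi]; exact h1 i hi
    · rw [e']; exact hZ
  · intro i hi j hj hij
    rcases Nat.lt_succ_iff_lt_or_eq.mp hi with hi | rfl
    · rcases Nat.lt_succ_iff_lt_or_eq.mp hj with hj | rfl
      · rw [e i hi, e j hj]; exact h2 i hi j hj hij
      · rw [e i hi, e']; intro x hx hx'; exact hd i hi x hx' hx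
    · rcases Nat.lt_succ_iff_lt_or_eq.mp hj with hj | rfl
      · rw [e j hj, e']; intro x hx hx'; exact hd j hj x hx hx'
      · exact absurd rfl hij
  · intro i hi h0
    rcases Nat.lt_succ_iff_lt_or_eq.mp hi with hi | rfl
    · obtain ⟨j, hj, hh⟩ := h3 i hi h0
      exact ⟨j, hj, by rw [e i hi, e j (hj.trans hi)]; exact hh⟩
    · obtain ⟨j, hj, hh⟩ := hl h0
      exact ⟨j, hj, by rw [e', e j hj]; exact hh⟩
  · intro i hi x hx
    rcases Nat.lt_succ_iff_lt_or_eq.mp hi with hi | rfl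
    · rw [e i hi] at hx; exact hU (h4 i hi x hx)
    · rw [e'] at hx; exact hZU x hx

theorem Con.fam {n : ℕ} {c : ℕ → List V} {U : Set V} (h : Con r w n c U) : Fam r w n := by
  obtain ⟨h1, h2, h3, -⟩ := h
  refine ⟨fun i => c i, fun i => h1 i i.2, ?_, ?_⟩
  · intro i j hij
    exact h2 i i.2 j j.2 (fun hh => hij (Fin.ext hh))
  · intro i hi
    obtain ⟨j, hj, hh⟩ := h3 i i.2 hi
    exact ⟨⟨j, hj.trans i.2⟩, hj, hh⟩

/-- the triangle is linked with a member of the family -/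
def Leaf (w : V × V → V × V → ZMod 2) (n : ℕ) (c : ℕ → List V) (τ : Tr V) : Prop :=
  ∃ i < n, ∃ β, fl (sd w β (c i)) τ = 1

/-- the state of the construction -/
def Sta (r : V → V → Prop) (w : V × V → V × V → ZMod 2) (n : ℕ) (U : Set V) (τ : Tr V) : Prop :=
  ∃ c, Con r w n c U ∧ τ.Ok r ∧ τ.vs ⊆ U ∧ (∀ i < n, ∀ x ∈ τ.vs, x ∉ c i) ∧ Leaf w n c τ

theorem step1 {n : ℕ} {c : ℕ → List V} {U : Set V} {τ σ ρ : Tr V} (hc : Con r w n c U)
    (hτ : τ.Ok r) (hτU : τ.vs ⊆ U) (hτc : ∀ i < n, ∀ x ∈ τ.vs, x ∉ c i) (hl : Leaf w n c τ)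
    (hσ : σ.Ok r) (hρ : ρ.Ok r) (d1 : Disjoint σ.vs U) (d2 : Disjoint ρ.vs U)
    (d3 : Disjoint σ.vs ρ.vs) (h1 : r τ.t σ.s) (h2 : r σ.t τ.s)
    (hc2 : Leaf w n c ρ ∨ (¬Leaf w n c σ ∧ fl (fun e => fl (w e) ρ) σ = 1)) :
    Sta r w (n + 1) (U ∪ (σ.vs ∪ ρ.vs)) ρ := by
  obtain ⟨i, hi, β, hβ⟩ := hl
  obtain ⟨Z, z1, z2', z3, z4⟩ := close2 (sd w β (c i)) (fun e => fl (w e) ρ) hτ hσ
    (Set.disjoint_of_subset_left hτU d1.symm) h1 h2 hβ
  have e : ∀ j < n, Function.update c n Z j = c j := fun j hj =>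
    Function.update_of_ne hj.ne _ _
  have e' : Function.update c n Z n = Z := Function.update_self _ _ _
  refine ⟨Function.update c n Z, hc.add z1 ?_ Set.subset_union_left ?_ ?_, hρ, ?_, ?_, ?_⟩
  · intro j hj x hx hx'
    rcases z2' x hx with h | h
    · exact hτc j hj x h hx'
    · exact Set.disjoint_left.mp d1 h (hc.2.2.2 j hj x hx')
  · intro x hx
    rcases z2' x hx with h | h
    · exact Or.inl (hτU h)
    · exact Or.inr (Or.inl h)
  · intro _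
    exact ⟨i, hi, ev_sd β _ _ z3⟩
  · intro x hx
    exact Or.inr (Or.inr hx)
  · intro j hj x hx hx'
    rcases Nat.lt_succ_iff_lt_or_eq.mp hj with hj | rfl
    · rw [e j hj] at hx'
      exact Set.disjoint_left.mp d2 hx (hc.2.2.2 j hj x hx')
    · rw [e'] at hx'
      rcases z2' x hx' with h | h
      · exact Set.disjoint_left.mp d2 hx (hτU h)
      · exact Set.disjoint_left.mp d3 h hx
  · rcases hc2 with ⟨j, hj, γ, hγ⟩ | ⟨g1, g2⟩
    · exact ⟨j, Nat.lt_succ_of_lt hj, γ, by rw [e j hj]; exact hγ⟩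
    · refine ⟨n, Nat.lt_succ_self n, false, ?_⟩
      rw [e', fl_sd]
      refine z4 ?_ g2
      rcases z2 (fl (sd w β (c i)) σ) with h | h
      · exact h
      · exact absurd ⟨i, hi, β, h⟩ g1

theorem step {n : ℕ} {U : Set V} {τ σ ρ : Tr V} (h : Sta r w n U τ)
    (hσ : σ.Ok r) (hρ : ρ.Ok r) (d1 : Disjoint σ.vs U) (d2 : Disjoint ρ.vs U)
    (d3 : Disjoint σ.vs ρ.vs) (h1 : r τ.t σ.s) (h2 : r σ.t τ.s) (h3 : r τ.t ρ.s)
    (h4 : r ρ.t τ.s) (hl : fl (fun e => fl (w e) ρ) σ = 1) :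
    Sta r w (n + 1) (U ∪ (σ.vs ∪ ρ.vs)) σ ∨ Sta r w (n + 1) (U ∪ (σ.vs ∪ ρ.vs)) ρ := by
  obtain ⟨c, hc, hτ, hτU, hτc, hL⟩ := h
  by_cases g : Leaf w n c σ
  · left
    rw [Set.union_comm σ.vs]
    exact step1 hc hτ hτU hτc hL hρ hσ d2 d1 d3.symm h3 h4 (Or.inl g)
  · right
    exact step1 hc hτ hτU hτc hL hσ hρ d1 d2 d3 h1 h2 (Or.inr ⟨g, hl⟩)

theorem start {σ ρ : Tr V} {u : V} (hσ : σ.Ok r) (hρ : ρ.Ok r) (d3 : Disjoint σ.vs ρ.vs)
    (u1 : u ∉ σ.vs) (u2 : u ∉ ρ.vs) (h1 : r σ.t u) (h2 : r u σ.s)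
    (hl : fl (fun e => fl (w e) ρ) σ = 1) : Sta r w 1 ({u} ∪ (σ.vs ∪ ρ.vs)) ρ := by
  obtain ⟨Z, z1, z2', z3⟩ := close1 _ hσ u1 h1 h2 hl
  have h0 : Con r w 0 (fun _ => []) ∅ := ⟨by simp, by simp, by simp, by simp⟩
  refine ⟨_, h0.add z1 (by simp) (Set.empty_subset _) ?_ (by simp), hρ, ?_, ?_, ?_⟩
  · intro x hx
    rcases z2' x hx with h | h
    · exact Or.inr (Or.inl h)
    · exact Or.inl h
  · intro x hx
    exact Or.inr (Or.inr hx)
  · intro j hj x hx hx'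
    obtain rfl : j = 0 := by omega
    rw [Function.update_self] at hx'
    rcases z2' x hx' with h | h
    · exact Set.disjoint_left.mp d3 h hx
    · exact u2 (h ▸ hx)
  · exact ⟨0, Nat.one_pos, false, by rw [Function.update_self, fl_sd]; exact z3⟩

theorem finish {n : ℕ} {U : Set V} {τ : Tr V} {u : V} (h : Sta r w n U τ) (hu : u ∉ U)
    (h1 : r τ.t u) (h2 : r u τ.s) : Fam r w (n + 1) := by
  obtain ⟨c, hc, hτ, hτU, hτc, i, hi, β, hβ⟩ := h
  obtain ⟨Z, z1, z2', z3⟩ := close1 _ hτ (fun hh => hu (hτU hh)) h1 h2 hβ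
  refine (hc.add (U' := Set.univ) z1 ?_ (Set.subset_univ _) (by simp) ?_).fam
  · intro j hj x hx hx'
    rcases z2' x hx with h | h
    · exact hτc j hj x h hx'
    · exact hu (h ▸ hc.2.2.2 j hj x hx')
  · intro _
    exact ⟨i, hi, ev_sd β _ _ z3⟩

end Pool.Agent.Lib.MP_4fe900_gt.Sx
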